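import Pool.Agent.Helper34_MTL.Hig

/-! MTL, module SER: the specialised representation has the same image for one hundred percent of the
integral parameters. -/

set_option autoImplicit false

namespace Pool.Agent.MTL.H34

open Polynomial Matrix Pool.Agent.MT100 Pool.Agent.Common_HIT Pool.Agent.MTL

theorem isalg : Algebra.IsAlgebraic ℚ (AlgebraicClosure ℚ) := by
  refine ⟨fun x => ?_⟩
  obtain ⟨p, hp0, hp⟩ := (AlgebraicClosure.isAlgebraic ℚ).isAlgebraic x
  refine ⟨p, hp0, ?_⟩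
  rw [aeval_def] at hp ⊢
  rw [← hp]
  congr 1

theorem isac : IsAlgClosure ℚ (AlgebraicClosure ℚ) := ⟨inferInstance, isalg⟩

theorem isgal : IsGalois ℚ (AlgebraicClosure ℚ) := by
  have := isac
  infer_instance

/-- elements of the Galois group near `σ` agree with `σ` at `x` -/
theorem eventually_apply {k K : Type*} [Field k] [Field K] [Algebra k K]
    [Algebra.IsAlgebraic k K] (x : K) (σ : K ≃ₐ[k] K) : ∀ᶠ σ' in nhds σ, σ' x = σ x := by
  have hfd : FiniteDimensional k (IntermediateField.adjoin k {x}) :=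
    IntermediateField.adjoin.finiteDimensional (Algebra.IsIntegral.isIntegral x)
  have hop := IntermediateField.fixingSubgroup_isOpen (IntermediateField.adjoin k {x})
  have h1 : ∀ᶠ τ in nhds (1 : K ≃ₐ[k] K), τ x = x := by
    filter_upwards [hop.mem_nhds (Subgroup.one_mem _)] with τ hτ
    exact hτ ⟨x, IntermediateField.mem_adjoin_simple_self k x⟩
  have h2 : Filter.Tendsto (fun σ' : K ≃ₐ[k] K => σ⁻¹ * σ') (nhds σ) (nhds 1) := by
    have : Continuous fun σ' : K ≃ₐ[k] K => σ⁻¹ * σ' := continuous_const_mul _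
    have h3 := this.tendsto σ
    simpa using h3
  filter_upwards [h2.eventually h1] with σ' hσ'
  have h4 : σ ((σ⁻¹ * σ') x) = σ' x := by
    rw [← AlgEquiv.mul_apply, mul_inv_cancel_left]
  rw [← h4, hσ']

/-- the decomposition group is closed -/
theorem decG_closed (π : BB →+* AlgebraicClosure ℚ) : IsClosed (decG π : Set GT) := by
  have halg := isalg
  have hgal := isgal
  have h1 : IsClosed {p : GT × GQ | ∀ b : BB, π (p.1 • b) = p.2 (π b)} := by
    rw [Set.setOf_forall]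
    refine isClosed_iInter fun b => ?_
    rw [← isOpen_compl_iff, isOpen_iff_mem_nhds]
    rintro ⟨σ, τ⟩ hp
    have h2 : ∀ᶠ σ' in nhds σ, σ' (b : Om) = σ (b : Om) := eventually_apply (b : Om) σ
    have h3 : ∀ᶠ τ' in nhds τ, τ' (π b) = τ (π b) := eventually_apply (π b) τ
    filter_upwards [(h2.prod_inl_nhds τ), (h3.prod_inr_nhds σ)] with q hq1 hq2
    have h4 : q.1 • b = σ • b := Subtype.ext hq1
    intro hq
    apply hp
    change π (σ • b) = τ (π b)
    rw [← h4, ← hq2]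
    exact hq
  have h5 := isClosedMap_fst_of_compactSpace (X := GT) (Y := GQ) _ h1
  have h6 : (decG π : Set GT) = Prod.fst '' {p : GT × GQ | ∀ b : BB, π (p.1 • b) = p.2 (π b)} := by
    ext σ
    constructor
    · rintro ⟨τ, hτ⟩
      exact ⟨(σ, τ), hτ, rfl⟩
    · rintro ⟨⟨σ', τ⟩, hτ, rfl⟩
      exact ⟨τ, hτ⟩
  rw [h6]
  exact h5

/-- module SER -/
theorem ser (hig : HigStmt) (fra : FraStmt) (dec : DecStmt) : SerStmt := by
  intro d _ _ ℓ _ ρ hρ
  have hG : IsCompact ((ρ.range : Subgroup (GL d ℚ_[ℓ])) : Set (GL d ℚ_[ℓ])) := by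
    rw [MonoidHom.coe_range]
    exact isCompact_range hρ
  obtain ⟨U, hUo, hU1, hU⟩ := fra d ℓ ρ.range hG
  obtain ⟨N, hN⟩ := ProfiniteGrp.exist_openNormalSubgroup_sub_open_nhds_of_one (G := GT)
    (U := ρ ⁻¹' U) (hUo.preimage hρ) (by rw [Set.mem_preimage, map_one]; exact hU1)
  obtain ⟨S, hS, hS2⟩ := hig N.toSubgroup N.isNormal' N.isOpen'
  refine ⟨S, hS, fun n hn ρn hsp => ?_⟩
  obtain ⟨π, hπ, hπ2⟩ := hsp
  have h1 : Set.range ρn = ρ '' (decG π : Set GT) := by
    ext g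
    constructor
    · rintro ⟨τ, rfl⟩
      obtain ⟨σ, hσ⟩ := dec n π hπ τ
      exact ⟨σ, ⟨τ, hσ⟩, (hπ2 σ τ hσ).symm⟩
    · rintro ⟨σ, ⟨τ, hσ⟩, rfl⟩
      exact ⟨τ, hπ2 σ τ hσ⟩
  have h2 : (decG π).map ρ = ρ.range := by
    apply hU
    · rw [Subgroup.coe_map]
      exact ((decG_closed π).isCompact.image hρ).isClosed
    · rintro g ⟨σ, _, rfl⟩
      exact ⟨σ, rfl⟩
    · rintro g ⟨γ, rfl⟩
      obtain ⟨σ, hσ, hσγ⟩ := hS2 n hn π hπ γ
      refine ⟨ρ σ, Subgroup.mem_map_of_mem _ hσ, ?_⟩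
      rw [← map_inv, ← map_mul]
      exact hN hσγ
  rw [h1, ← Subgroup.coe_map, h2, MonoidHom.coe_range]

end Pool.Agent.MTL.H34
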