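import Pool.Agent.MTL.Stmts

/-! MTL, module HID: density of the integral specialisations with a root; DensZero calculus. -/

set_option autoImplicit false

namespace Pool.Agent.MTL.H34

open Polynomial Pool.Agent.MT100 Pool.Agent.Common_HIT

/-- criterion for density zero -/
theorem dens_of (S : Set ℕ) (h : ∀ ε : ℝ, 0 < ε → ∃ X0 : ℕ, ∀ X : ℕ, X0 ≤ X →
    (Nat.card {n : ℕ // n ∈ S ∧ n ≤ X} : ℝ) ≤ ε * X) : DensZero S := by
  unfold DensZero
  rw [Metric.tendsto_atTop]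
  intro ε hε
  obtain ⟨X0, hX⟩ := h (ε / 2) (by linarith)
  refine ⟨X0 + 1, fun X hX1 => ?_⟩
  have h1 := hX X (by omega)
  have hXpos : (0 : ℝ) < X := by
    have : 0 < X := by omega
    exact_mod_cast this
  rw [Real.dist_eq, sub_zero, abs_of_nonneg (by positivity), div_lt_iff₀ hXpos]
  nlinarith

theorem fin_le (S : Set ℕ) (X : ℕ) : Finite {n : ℕ // n ∈ S ∧ n ≤ X} :=
  Set.Finite.to_subtype ((Set.finite_Iic X).subset fun _ h => h.2)

theorem dens_mono {S T : Set ℕ} (hST : S ⊆ T) (hT : DensZero T) : DensZero S := by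
  unfold DensZero at *
  refine squeeze_zero (fun X => by positivity) (fun X => ?_) hT
  have := fin_le T X
  have h1 : Nat.card {n : ℕ // n ∈ S ∧ n ≤ X} ≤ Nat.card {n : ℕ // n ∈ T ∧ n ≤ X} :=
    Nat.card_le_card_of_injective (fun n => ⟨n.1, hST n.2.1, n.2.2⟩)
      (fun a b hab => Subtype.ext (by simpa using hab))
  have : (Nat.card {n : ℕ // n ∈ S ∧ n ≤ X} : ℝ) ≤ Nat.card {n : ℕ // n ∈ T ∧ n ≤ X} := by
    exact_mod_cast h1
  gcongr

theorem dens_union {S T : Set ℕ} (hS : DensZero S) (hT : DensZero T) : DensZero (S ∪ T) := by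
  unfold DensZero at *
  have h := hS.add hT
  rw [add_zero] at h
  refine squeeze_zero (fun X => by positivity) (fun X => ?_) h
  have f1 := fin_le S X
  have f2 := fin_le T X
  have h1 : Nat.card {n : ℕ // n ∈ S ∪ T ∧ n ≤ X} ≤
      Nat.card {n : ℕ // n ∈ S ∧ n ≤ X} + Nat.card {n : ℕ // n ∈ T ∧ n ≤ X} := by
    classical
    rw [← Nat.card_sum]
    refine Nat.card_le_card_of_injective (fun n => if h : n.1 ∈ S then Sum.inl ⟨n.1, h, n.2.2⟩
      else Sum.inr ⟨n.1, n.2.1.resolve_left h, n.2.2⟩) ?_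
    intro a b hab
    by_cases ha : a.1 ∈ S <;> by_cases hb : b.1 ∈ S
    · simp only [ha, hb, dite_true, Sum.inl.injEq, Subtype.mk.injEq] at hab
      exact Subtype.ext hab
    · simp [ha, hb] at hab
    · simp [ha, hb] at hab
    · simp only [ha, hb, dite_false, Sum.inr.injEq, Subtype.mk.injEq] at hab
      exact Subtype.ext hab
  have h2 : (Nat.card {n : ℕ // n ∈ S ∪ T ∧ n ≤ X} : ℝ) ≤
      Nat.card {n : ℕ // n ∈ S ∧ n ≤ X} + Nat.card {n : ℕ // n ∈ T ∧ n ≤ X} := by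
    exact_mod_cast h1
  rw [← add_div]
  gcongr

theorem dens_empty : DensZero ∅ := by
  unfold DensZero
  have : (fun X : ℕ => (Nat.card {n : ℕ // n ∈ (∅ : Set ℕ) ∧ n ≤ X} : ℝ) / X) = fun _ => 0 := by
    funext X
    simp
  rw [this]
  exact tendsto_const_nhds

theorem dens_iUnion {ι : Type*} [Finite ι] (S : ι → Set ℕ) (h : ∀ i, DensZero (S i)) :
    DensZero (⋃ i, S i) := by
  classical
  cases nonempty_fintype ι
  have : ∀ s : Finset ι, DensZero (⋃ i ∈ s, S i) := by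
    intro s
    induction s using Finset.induction_on with
    | empty => simpa using dens_empty
    | insert a s ha ih =>
      rw [Finset.set_biUnion_insert]
      exact dens_union (h a) ih
  simpa using this Finset.univ

/-- module HID -/
theorem hid : HidStmt := by
  intro g hg
  classical
  obtain ⟨A, B, r, hr, hsep⟩ := hg.sep
  obtain ⟨N0, hN0⟩ := count_bad g hg.monic hg.no_root A B r hr hsep
  obtain ⟨C', R0, hC⟩ := hN0 (N0 + 1) (by omega)
  set e := (N0 + 1) * (N0 + 1 + 1) / 2 with he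
  have he1 : 1 ≤ e := by
    rw [he, Nat.le_div_iff_mul_le (by norm_num)]
    calc 1 * 2 = 1 * (1 + 1) := rfl
      _ ≤ (N0 + 1) * (N0 + 1 + 1) := Nat.mul_le_mul (by omega) (by omega)
  apply dens_of
  intro ε hε
  obtain ⟨K, hK⟩ := exists_nat_gt (C' * 2 ^ (e - 1) / ε)
  set K1 := K + R0 + 1 with hK1
  refine ⟨(K1 + 1) ^ e, fun X hX => ?_⟩
  have hex : ∃ R : ℕ, X < R ^ e := ⟨X + 1, by
    calc X < X + 1 := Nat.lt_succ_self X
      _ = (X + 1) ^ 1 := (pow_one _).symm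
      _ ≤ (X + 1) ^ e := Nat.pow_le_pow_right (by omega) he1⟩
  obtain ⟨R, hR1, hR2⟩ : ∃ R : ℕ, X < R ^ e ∧ (R - 1) ^ e ≤ X := by
    refine ⟨Nat.find hex, Nat.find_spec hex, ?_⟩
    by_contra hcon
    push Not at hcon
    have h1 := Nat.find_min' hex hcon
    have h2 : Nat.find hex = 0 := by omega
    have h3 := Nat.find_spec hex
    rw [h2, zero_pow (by omega)] at h3
    omega
  have hRK : K1 + 1 < R := by
    by_contra hcon
    push Not at hcon
    have := Nat.pow_le_pow_left hcon e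
    omega
  have hcard : Nat.card {n : ℕ // n ∈ {n : ℕ | ∃ y : ℤ, evalEval (n : ℤ) y g = 0} ∧ n ≤ X} ≤
      C' * R ^ (e - 1) := by
    refine le_trans ?_ (hC R (by omega))
    rw [← Nat.card_eq_finsetCard]
    refine Nat.card_le_card_of_injective (fun n => ⟨n.1, ?_⟩) ?_
    · rw [bad, Finset.mem_filter, Finset.mem_range]
      exact ⟨lt_of_le_of_lt n.2.2 hR1, n.2.1⟩
    · intro a b hab
      exact Subtype.ext (by simpa using hab)
  have hcard' : (Nat.card {n : ℕ // n ∈ {n : ℕ | ∃ y : ℤ, evalEval (n : ℤ) y g = 0} ∧ n ≤ X} : ℝ) ≤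
      C' * (R : ℝ) ^ (e - 1) := by exact_mod_cast hcard
  refine hcard'.trans ?_
  obtain ⟨Q, hQ⟩ : ∃ Q : ℕ, R = Q + 1 := ⟨R - 1, by omega⟩
  have hQK : K1 < Q + 0 := by omega
  rw [hQ] at hR2 ⊢
  rw [Nat.add_sub_cancel] at hR2
  have hQ1 : (1 : ℝ) ≤ Q := by
    have : 1 ≤ Q := by omega
    exact_mod_cast this
  have hX' : (Q : ℝ) ^ e ≤ X := by exact_mod_cast hR2
  have h1 : ((Q : ℝ) + 1) ^ (e - 1) ≤ 2 ^ (e - 1) * (Q : ℝ) ^ (e - 1) := by
    rw [← mul_pow]
    exact pow_le_pow_left₀ (by positivity) (by linarith) _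
  have h2 : (C' : ℝ) * 2 ^ (e - 1) ≤ ε * Q := by
    have h3 : (C' * 2 ^ (e - 1) / ε : ℝ) < Q := by
      refine hK.trans_le ?_
      have : K ≤ Q := by omega
      exact_mod_cast this
    rw [div_lt_iff₀ hε] at h3
    linarith
  have h4 : (Q : ℝ) ^ e = Q * (Q : ℝ) ^ (e - 1) := by
    rw [← pow_succ']; congr 1; omega
  push_cast
  calc (C' : ℝ) * ((Q : ℝ) + 1) ^ (e - 1) ≤ C' * (2 ^ (e - 1) * (Q : ℝ) ^ (e - 1)) := by gcongr
    _ = (C' * 2 ^ (e - 1)) * (Q : ℝ) ^ (e - 1) := by ring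
    _ ≤ (ε * Q) * (Q : ℝ) ^ (e - 1) := by gcongr
    _ = ε * (Q : ℝ) ^ e := by rw [h4]; ring
    _ ≤ ε * X := by gcongr

end Pool.Agent.MTL.H34
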