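import Pool.Agent.Helper34_MTL.Hid
import Pool.Agent.Common_HIT.Multi

/-! MTL, module HIG: Hilbert's irreducibility theorem for finite quotients of the Galois group of
`ℚ(t)`, one hundred percent form. -/

set_option autoImplicit false

namespace Pool.Agent.MTL.H34

open Polynomial Pool.Agent.MT100 Pool.Agent.Common_HIT Pool.Agent.MTL

/-- the integral polynomials as rational functions -/
noncomputable def zr : ℤ[X] →+* RatFunc ℚ :=
  (algebraMap ℚ[X] (RatFunc ℚ)).comp (mapRingHom (Int.castRingHom ℚ))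

theorem zr_inj : Function.Injective zr := by
  unfold zr
  rw [RingHom.coe_comp]
  refine (IsFractionRing.injective ℚ[X] (RatFunc ℚ)).comp ?_
  rw [coe_mapRingHom]
  exact Polynomial.map_injective _ Int.cast_injective

theorem isFrac : @IsFractionRing ℤ[X] _ (RatFunc ℚ) _ zr.toAlgebra := by
  let alg : Algebra ℤ[X] (RatFunc ℚ) := zr.toAlgebra
  have hf : FaithfulSMul ℤ[X] (RatFunc ℚ) :=
    (faithfulSMul_iff_algebraMap_injective _ _).2 zr_inj
  refine IsFractionRing.of_field ℤ[X] (RatFunc ℚ) fun z => ?_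
  obtain ⟨p, q, hq, rfl⟩ := IsFractionRing.div_surjective (A := ℚ[X]) (K := RatFunc ℚ) z
  obtain ⟨D, L, hD, hL⟩ := exists_common_den (fun b : Bool => if b then p else q)
  refine ⟨L true, L false, ?_⟩
  have h1 : ∀ b, zr (L b) = algebraMap ℚ[X] (RatFunc ℚ) (C (D : ℚ)) *
      algebraMap ℚ[X] (RatFunc ℚ) (if b then p else q) := by
    intro b
    unfold zr
    rw [RingHom.comp_apply, coe_mapRingHom, hL b, map_mul]
  have h2 : algebraMap ℚ[X] (RatFunc ℚ) (C (D : ℚ)) ≠ 0 := by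
    rw [Ne, IsFractionRing.to_map_eq_zero_iff, C_eq_zero]
    exact_mod_cast hD
  change _ = zr (L true) / zr (L false)
  rw [h1, h1, mul_div_mul_left _ _ h2]
  simp

/-- integral elements of the fixed field of a proper closed subgroup -/
theorem exists_integral_fixed_closed (k Ω : Type*) [Field k] [Field Ω] [Algebra ℤ[X] k]
    [IsFractionRing ℤ[X] k] [Algebra k Ω] [IsGalois k Ω] [Algebra ℤ[X] Ω]
    [IsScalarTower ℤ[X] k Ω] (D : Subgroup (Ω ≃ₐ[k] Ω)) (hc : IsClosed (D : Set (Ω ≃ₐ[k] Ω)))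
    (hD : D ≠ ⊤) :
    ∃ x : Ω, IsIntegral ℤ[X] x ∧ (∀ σ ∈ D, σ x = x) ∧ x ∉ Set.range (algebraMap k Ω) := by
  have h1 : ¬ IntermediateField.fixedField D ≤ ⊥ := by
    intro h
    apply hD
    have h2 := InfiniteGalois.fixingSubgroup_fixedField (k := k) (K := Ω) ⟨D, hc⟩
    change (IntermediateField.fixedField D).fixingSubgroup = D at h2
    rw [← h2, le_bot_iff.1 h, IntermediateField.fixingSubgroup_bot]
  obtain ⟨y, hyD, hy⟩ := SetLike.not_le_iff_exists.1 h1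
  have halg : IsAlgebraic ℤ[X] y :=
    (IsFractionRing.isAlgebraic_iff ℤ[X] k Ω).2 (Algebra.IsAlgebraic.isAlgebraic y)
  obtain ⟨s, hs, hsy⟩ := halg.exists_integral_multiple
  have hs' : algebraMap ℤ[X] k s ≠ 0 := by
    rwa [Ne, IsFractionRing.to_map_eq_zero_iff]
  have hsm : s • y = (algebraMap ℤ[X] k s) • y := (algebraMap_smul k s y).symm
  refine ⟨s • y, hsy, fun σ hσ => ?_, fun h => hy ?_⟩
  · rw [hsm, map_smul]
    congr 1
    exact hyD ⟨σ, hσ⟩
  · obtain ⟨z, hz⟩ := h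
    rw [IntermediateField.mem_bot]
    refine ⟨(algebraMap ℤ[X] k s)⁻¹ * z, ?_⟩
    rw [map_mul, hz, hsm, Algebra.smul_def, map_inv₀, ← mul_assoc, inv_mul_cancel₀, one_mul]
    exact (_root_.map_ne_zero _).2 hs'

theorem exists_om (D : Subgroup GT) (hc : IsClosed (D : Set GT)) (hD : D ≠ ⊤) :
    ∃ (x : Om) (g : ℤ[X][X]), Admissible g ∧ g.eval₂ zt x = 0 ∧ ∀ σ ∈ D, σ x = x := by
  let alg1 : Algebra ℤ[X] (RatFunc ℚ) := zr.toAlgebra
  let alg2 : Algebra ℤ[X] Om := zt.toAlgebra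
  have hfr : IsFractionRing ℤ[X] (RatFunc ℚ) := isFrac
  have tower : @IsScalarTower ℤ[X] (RatFunc ℚ) Om alg1.toSMul _ alg2.toSMul := by
    refine @IsScalarTower.of_algebraMap_eq ℤ[X] (RatFunc ℚ) Om _ _ _ alg1 _ alg2 fun p => ?_
    change zt p = algebraMap (RatFunc ℚ) Om (zr p)
    unfold zt zr
    rw [RingHom.comp_apply, RingHom.comp_apply, ← IsScalarTower.algebraMap_apply]
  have hgal : IsGalois (RatFunc ℚ) Om := inferInstance
  obtain ⟨x, hx, hfix, hxk⟩ := exists_integral_fixed_closed (RatFunc ℚ) Om D hc hD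
  refine ⟨x, minpoly ℤ[X] x, admissible_minpoly (RatFunc ℚ) Om x hx hxk, ?_, hfix⟩
  have := minpoly.aeval ℤ[X] x
  rw [aeval_def] at this
  exact this

/-- integral over `ℤ[t]` implies integral over `ℚ[t]` -/
theorem isIntegral_of (x : Om) (g : ℤ[X][X]) (hm : g.Monic) (hg : g.eval₂ zt x = 0) :
    IsIntegral ℚ[X] x := by
  refine ⟨g.map (mapRingHom (Int.castRingHom ℚ)), hm.map _, ?_⟩
  rw [eval₂_map]
  exact hg

/-- the decomposition group -/
def decG (π : BB →+* AlgebraicClosure ℚ) : Subgroup GT where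
  carrier := {σ | ∃ τ : GQ, ∀ b : BB, π (σ • b) = τ (π b)}
  one_mem' := ⟨1, fun b => by simp⟩
  mul_mem' := by
    rintro a b ⟨τ, hτ⟩ ⟨τ', hτ'⟩
    exact ⟨τ * τ', fun x => by rw [mul_smul, hτ, hτ']; rfl⟩
  inv_mem' := by
    rintro a ⟨τ, hτ⟩
    refine ⟨τ⁻¹, fun x => ?_⟩
    have h := hτ (a⁻¹ • x)
    rw [smul_inv_smul] at h
    rw [h]
    exact (τ.symm_apply_apply _).symm

theorem mem_decG (π : BB →+* AlgebraicClosure ℚ) (σ : GT) :
    σ ∈ decG π ↔ ∃ τ : GQ, ∀ b : BB, π (σ • b) = τ (π b) := Iff.rfl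

/-- module HIG -/
theorem hig (hid : HidStmt) (res : ResStmt) : HigStmt := by
  classical
  intro N hNn hNo
  have := hNn
  have hfin : Finite (GT ⧸ N) := Subgroup.quotient_finite_of_isOpen N hNo
  have hcl : ∀ D' : Subgroup (GT ⧸ N), IsClosed ((D'.comap (QuotientGroup.mk' N) : Subgroup GT) : Set GT) := by
    intro D'
    refine Subgroup.isClosed_of_isOpen _ (Subgroup.isOpen_mono (H₁ := N) ?_ hNo)
    intro σ hσ
    rw [Subgroup.mem_comap, QuotientGroup.mk'_apply, (QuotientGroup.eq_one_iff σ).2 hσ]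
    exact D'.one_mem
  have hne : ∀ D' : Subgroup (GT ⧸ N), D' ≠ ⊤ → D'.comap (QuotientGroup.mk' N) ≠ ⊤ := by
    intro D' hD' h
    apply hD'
    rw [eq_top_iff]
    intro q _
    obtain ⟨σ, rfl⟩ := QuotientGroup.mk'_surjective N q
    have : σ ∈ D'.comap (QuotientGroup.mk' N) := by rw [h]; exact Subgroup.mem_top _
    exact this
  choose x g hadm hgx hfix using
    fun D : {D' : Subgroup (GT ⧸ N) // D' ≠ ⊤} => exists_om _ (hcl D.1) (hne D.1 D.2)
  refine ⟨⋃ D, {n : ℕ | ∃ y : ℤ, evalEval (n : ℤ) y (g D) = 0}, dens_iUnion _ fun D => hid _ (hadm D), ?_⟩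
  intro n hn π hπ γ
  set D' := (decG π).map (QuotientGroup.mk' N) with hD'
  by_cases htop : D' = ⊤
  · have h1 : QuotientGroup.mk' N γ ∈ D' := by rw [htop]; exact Subgroup.mem_top _
    obtain ⟨σ, hσ, hσγ⟩ := h1
    refine ⟨σ, hσ, ?_⟩
    rw [QuotientGroup.mk'_apply, QuotientGroup.mk'_apply] at hσγ
    exact QuotientGroup.eq.1 hσγ
  · exfalso
    apply hn
    rw [Set.mem_iUnion]
    refine ⟨⟨D', htop⟩, ?_⟩
    have hint : IsIntegral ℚ[X] (x ⟨D', htop⟩) :=
      isIntegral_of _ _ (hadm ⟨D', htop⟩).monic (hgx ⟨D', htop⟩)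
    obtain ⟨z, hz, hz2⟩ := res n π hπ ⟨x ⟨D', htop⟩, hint⟩
      ⟨g ⟨D', htop⟩, (hadm ⟨D', htop⟩).monic, hgx ⟨D', htop⟩⟩ (by
        intro σ hσ
        apply Subtype.ext
        change σ (x ⟨D', htop⟩) = x ⟨D', htop⟩
        apply hfix ⟨D', htop⟩
        rw [Subgroup.mem_comap]
        exact Subgroup.mem_map_of_mem _ hσ)
    exact ⟨z, hz2 _ (hgx ⟨D', htop⟩)⟩

end Pool.Agent.MTL.H34
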