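import Pool.Agent.MTL.Stmts

/-! MTL, module IMG: `BigMonodromy` depends only on the image. -/

set_option autoImplicit false

namespace Pool.Agent.MTL.H34

open Matrix Pool.Agent.MT100 Pool.Agent.MTL

/-- module IMG -/
theorem img : ImgStmt := by
  intro d _ _ E ℓ _ Γ Γ' _ _ ρ ρ' hr hB
  have hr1 : ∀ γ' : Γ', ∃ γ : Γ, ρ γ = ρ' γ' := by
    intro γ'
    have : ρ' γ' ∈ Set.range ρ := by rw [← hr]; exact ⟨γ', rfl⟩
    exact this
  have hr2 : ∀ γ : Γ, ∃ γ' : Γ', ρ' γ' = ρ γ := by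
    intro γ
    have : ρ γ ∈ Set.range ρ' := by rw [hr]; exact ⟨γ, rfl⟩
    exact this
  have hrg : ρ'.range = ρ.range := SetLike.coe_injective (by simpa using hr)
  refine ⟨fun γ' => ?_, ?_, fun Γ'' hΓ U hU => ?_, ?_⟩
  · obtain ⟨γ, hγ⟩ := hr1 γ'
    rw [← hγ]
    exact hB.simil γ
  · obtain ⟨γ, c, hc⟩ := hB.mult
    obtain ⟨γ', hγ'⟩ := hr2 γ
    exact ⟨γ', c, by rw [hγ']; exact hc⟩
  · have hfi : ((Γ''.map ρ').comap ρ).FiniteIndex := by
      rw [Subgroup.finiteIndex_iff, Subgroup.index_comap, ← hrg, ← Subgroup.index_comap,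
        ← Subgroup.finiteIndex_iff]
      exact Subgroup.finiteIndex_of_le (Subgroup.le_comap_map ρ' Γ'')
    refine hB.irred _ hfi U fun γ hγ x hx => ?_
    obtain ⟨γ', hγ', h2⟩ := hγ
    rw [← h2]
    exact hU γ' hγ' x hx
  · obtain ⟨γ, hγ⟩ := hB.trans
    obtain ⟨γ', hγ'⟩ := hr2 γ
    exact ⟨γ', by rw [hγ']; exact hγ⟩

end Pool.Agent.MTL.H34
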